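import Pool.Agent.W993.MC.Stm
import Pool.Agent.H137R5.TowBase

set_option autoImplicit false

namespace Pool.Agent.W980.MC

open Pool.Agent.W993.MC

theorem t_TR : S_TR := by
  intro h
  have hpi : (Real.pi : ℂ) ≠ 0 := by exact_mod_cast Real.pi_ne_zero
  have hlog : Real.log 2 ≠ 0 := (Real.log_pos one_lt_two).ne'
  have h2 : IsAlgebraic ℚ (Real.exp (Real.log 2)) := by
    rw [Real.exp_log two_pos]
    have : IsAlgebraic ℚ (algebraMap ℚ ℝ 2) := isAlgebraic_algebraMap 2
    simpa using this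
  have hc : IsAlgebraic ℚ (((Real.log 2 / Real.pi : ℝ) : ℝ) : ℂ) := h.algebraMap (A := ℂ)
  have key := Pool.Agent.H137R5.Tow.bk1 (Real.log 2) h2 hlog 0 1
    (-(((Real.log 2 / Real.pi : ℝ) : ℝ) : ℂ)) isAlgebraic_zero isAlgebraic_one hc.neg (by
      push_cast
      field_simp
      ring)
  exact one_ne_zero key.2.1

end Pool.Agent.W980.MC
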